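import Pool.Agent.H14.AVR.Stmts3

/-!
# AVR: common facts for the local counts
-/

set_option autoImplicit false

namespace Pool.AVR.H29

open Polynomial Matrix Pool.AVR

section Ring

variable {R : Type} [CommRing R] {ϖ : R}

theorem not_unit_of_dvd (h : Len2 R ϖ) {x : R} (hx : ϖ ∣ x) : ¬ IsUnit x := by
  intro hu
  exact h.nonunit (isUnit_of_dvd_unit hx hu)

theorem dvd_of_not_unit (h : Len2 R ϖ) {x : R} (hx : ¬ IsUnit x) : ϖ ∣ x :=
  (h.unit x).resolve_left hx

theorem mul_zero_of_dvd (h : Len2 R ϖ) {x y : R} (hx : ϖ ∣ x) (hy : ϖ ∣ y) : x * y = 0 := by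
  obtain ⟨s, rfl⟩ := hx
  obtain ⟨t, rfl⟩ := hy
  calc ϖ * s * (ϖ * t) = (ϖ * ϖ) * (s * t) := by ring
    _ = 0 := by rw [h.sq]; ring

theorem card_span [Finite R] (h : Len2 R ϖ) :
    ({x : R | ϖ ∣ x}).ncard = res ϖ := by
  have e1 : ({x : R | ϖ ∣ x}).ncard = Nat.card (Ideal.span {ϖ} : Ideal R) := by
    rw [← Nat.card_coe_set_eq]
    apply Nat.card_congr
    apply Equiv.subtypeEquivRight
    intro x
    rw [Set.mem_setOf_eq, Ideal.mem_span_singleton]
  rw [e1, res]
  have hk : LinearMap.ker (LinearMap.mulLeft R ϖ) = Ideal.span {ϖ} := by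
    ext x
    rw [LinearMap.mem_ker, LinearMap.mulLeft_apply, Ideal.mem_span_singleton]
    constructor
    · exact h.ann x
    · intro hx
      exact mul_zero_of_dvd h (dvd_refl _) hx
  have hr : LinearMap.range (LinearMap.mulLeft R ϖ) = Ideal.span {ϖ} := by
    ext x
    rw [LinearMap.mem_range, Ideal.mem_span_singleton]
    constructor
    · rintro ⟨y, rfl⟩
      exact ⟨y, by simp⟩
    · rintro ⟨y, rfl⟩
      exact ⟨y, by simp⟩
  have e2 := (LinearMap.mulLeft R ϖ).quotKerEquivRange
  rw [hk, hr] at e2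
  exact (Nat.card_congr e2.toEquiv).symm

theorem card_ring [Finite R] (h : Len2 R ϖ) : Nat.card R = res ϖ ^ 2 := by
  have e1 : Nat.card (Ideal.span {ϖ} : Ideal R) = res ϖ := by
    rw [← card_span h, ← Nat.card_coe_set_eq]
    apply Nat.card_congr
    apply Equiv.subtypeEquivRight
    intro x
    rw [Set.mem_setOf_eq, Ideal.mem_span_singleton]
  have e2 := Submodule.card_eq_card_quotient_mul_card (Ideal.span {ϖ} : Ideal R)
  rw [e2, e1, res]
  ring

theorem res_pos [Finite R] (h : Len2 R ϖ) : 0 < res ϖ := by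
  rw [← card_span h]
  apply Set.ncard_pos (Set.toFinite _) |>.2
  exact ⟨0, dvd_zero _⟩

/-- Number of nonzero nonunits. -/
theorem card_span_ne [Finite R] (h : Len2 R ϖ) :
    ({x : R | ϖ ∣ x ∧ x ≠ 0}).ncard = res ϖ - 1 := by
  have e : {x : R | ϖ ∣ x ∧ x ≠ 0} = {x : R | ϖ ∣ x} \ {0} := by
    ext x
    simp
  rw [e, Set.ncard_diff_singleton_of_mem (by simp), card_span h]

/-- Number of units. -/
theorem card_units [Finite R] (h : Len2 R ϖ) :
    ({x : R | IsUnit x}).ncard = res ϖ ^ 2 - res ϖ := by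
  have e : {x : R | IsUnit x} = {x : R | ϖ ∣ x}ᶜ := by
    ext x
    simp only [Set.mem_setOf_eq, Set.mem_compl_iff]
    constructor
    · intro hx hd
      exact not_unit_of_dvd h hd hx
    · intro hx
      exact (h.unit x).resolve_right hx
  rw [e, Set.ncard_compl, card_span h, card_ring h]

/-- Number of elements of a residue class. -/
theorem card_coset [Finite R] (h : Len2 R ϖ) (r : R) :
    ({x : R | ϖ ∣ x - r}).ncard = res ϖ := by
  have e : {x : R | ϖ ∣ x - r} = (fun x => x + r) '' {x : R | ϖ ∣ x} := by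
    ext x
    simp only [Set.mem_setOf_eq, Set.mem_image]
    constructor
    · intro hx
      exact ⟨x - r, hx, by ring⟩
    · rintro ⟨y, hy, rfl⟩
      simpa using hy
  rw [e, Set.ncard_image_of_injective _ (add_left_injective r), card_span h]

/-- The discriminant in terms of the values at a point. -/
theorem disc_shift (a b c s : R) :
    disc a b c = (3 * s + a) ^ 2 * dv a b s ^ 2 - 4 * dv a b s ^ 3
      - 4 * (3 * s + a) ^ 3 * ev a b c s + 18 * (3 * s + a) * dv a b s * ev a b c s
      - 27 * ev a b c s ^ 2 := by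
  simp only [disc, dv, ev]
  ring

theorem ev_shift (a b c s t : R) :
    ev a b c (s + t) = ev a b c s + t * dv a b s + (3 * s + a) * t ^ 2 + t ^ 3 := by
  simp only [dv, ev]
  ring

theorem dv_shift (a b s t : R) :
    dv a b (s + t) = dv a b s + 2 * (3 * s + a) * t + 3 * t ^ 2 := by
  simp only [dv]
  ring

theorem ev_eq_of_zero (h : Len2 R ϖ) {a b c s : R} (hs : ev a b c s = 0) (hd : ϖ ∣ dv a b s) :
    disc a b c = 0 := by
  have h2 : dv a b s * dv a b s = 0 := mul_zero_of_dvd h hd hd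
  rw [disc_shift a b c s, hs]
  linear_combination ((3 * s + a) ^ 2 - 4 * dv a b s) * h2

end Ring

section Count

/-- A bound for the number of elements by fibres over which one coordinate varies in a coset. -/
theorem ncard_le_fib {α β R : Type} [AddGroup R] [Finite β] [Finite R]
    (C : Set α) (T : Set β) (J : Set R) (f : α → β) (g : α → R)
    (hf : ∀ x ∈ C, f x ∈ T) (hg : ∀ x ∈ C, ∀ y ∈ C, f x = f y → g x - g y ∈ J)
    (hi : ∀ x ∈ C, ∀ y ∈ C, f x = f y → g x = g y → x = y) :
    C.ncard ≤ T.ncard * J.ncard := by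
  classical
  rw [← Set.ncard_prod]
  let g0 : β → R := fun t => if ht : ∃ x ∈ C, f x = t then g ht.choose else 0
  apply Set.ncard_le_ncard_of_injOn (fun x => (f x, g x - g0 (f x)))
  · intro x hx
    rw [Set.mem_prod]
    refine ⟨hf x hx, ?_⟩
    have ht : ∃ y ∈ C, f y = f x := ⟨x, hx, rfl⟩
    have h1 : g0 (f x) = g ht.choose := by
      simp only [g0]
      rw [dif_pos ht]
    simp only
    rw [h1]
    exact hg x hx _ ht.choose_spec.1 ht.choose_spec.2.symm
  · intro x hx y hy hxy
    simp only [Prod.mk.injEq] at hxy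
    obtain ⟨h1, h2⟩ := hxy
    rw [h1] at h2
    exact hi x hx y hy h1 (sub_left_injective h2)

end Count

end Pool.AVR.H29
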