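import Pool.Agent.H29.AVR.Common

/-!
# AVR, module LDC
-/

set_option autoImplicit false

namespace Pool.AVR.H29

open Polynomial Matrix Pool.AVR

theorem cub_inj {R : Type} [CommRing R] {a b c a' b' c' : R} (h : cub a b c = cub a' b' c') :
    a = a' ∧ b = b' ∧ c = c' := by
  have h2 := congrArg (fun p => coeff p 2) h
  have h1 := congrArg (fun p => coeff p 1) h
  have h0 := congrArg (fun p => coeff p 0) h
  simp [cub, coeff_X, coeff_C] at h2 h1 h0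
  exact ⟨h2, h1, h0⟩

theorem charpoly_eq {R : Type} [CommRing R] (p q r s u w : R) :
    (AA R * !![p, q, r; q, s, u; r, u, w]).charpoly =
      cub (-(2 * r + s)) (r ^ 2 + 2 * r * s - 2 * u * q - w * p)
        (-(r ^ 2 * s) + 2 * u * q * r - u ^ 2 * p - w * q ^ 2 + w * p * s) := by
  have e : AA R * !![p, q, r; q, s, u; r, u, w] = !![r, u, w; q, s, u; p, q, r] := by
    ext i j
    fin_cases i <;> fin_cases j <;> simp [AA, Matrix.mul_apply, Fin.sum_univ_three]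
  rw [e, Matrix.charpoly, Matrix.charmatrix, Matrix.det_fin_three]
  have h2 : (C (2 : R) : R[X]) = 2 := map_ofNat C 2
  simp [cub, Matrix.scalar_apply]
  rw [h2]
  ring

theorem mat_eq {R : Type} [CommRing R] {B : Matrix (Fin 3) (Fin 3) R} (hB : Bᵀ = B) :
    B = !![B 0 0, B 0 1, B 0 2; B 0 1, B 1 1, B 1 2; B 0 2, B 1 2, B 2 2] := by
  have h1 : B 1 0 = B 0 1 := by
    have := congrFun (congrFun hB 0) 1
    simpa using this
  have h2 : B 2 0 = B 0 2 := by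
    have := congrFun (congrFun hB 0) 2
    simpa using this
  have h3 : B 2 1 = B 1 2 := by
    have := congrFun (congrFun hB 1) 2
    simpa using this
  ext i j
  fin_cases i <;> fin_cases j <;> simp [h1, h2, h3]

/-- The equations of the fibre. -/
theorem fib_eqs {R : Type} [CommRing R] {a b c : R} {B : Matrix (Fin 3) (Fin 3) R}
    (hB : B ∈ Fib a b c) :
    a = -(2 * B 0 2 + B 1 1) ∧
    b = (B 0 2) ^ 2 + 2 * B 0 2 * B 1 1 - 2 * B 1 2 * B 0 1 - B 2 2 * B 0 0 ∧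
    c = -((B 0 2) ^ 2 * B 1 1) + 2 * B 1 2 * B 0 1 * B 0 2 - (B 1 2) ^ 2 * B 0 0
      - B 2 2 * (B 0 1) ^ 2 + B 2 2 * B 0 0 * B 1 1 := by
  have h1 := mat_eq hB.1
  have h2 := hB.2
  rw [h1, charpoly_eq] at h2
  exact cub_inj h2.symm

theorem fib_ext {R : Type} [CommRing R] {a b c : R} {B B' : Matrix (Fin 3) (Fin 3) R}
    (hB : B ∈ Fib a b c) (hB' : B' ∈ Fib a b c) (h0 : B 0 0 = B' 0 0) (h1 : B 0 1 = B' 0 1)
    (h2 : B 0 2 = B' 0 2) (h4 : B 1 2 = B' 1 2) (h5 : B 2 2 = B' 2 2) : B = B' := by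
  have h3 : B 1 1 = B' 1 1 := by
    have e := (fib_eqs hB).1
    have e' := (fib_eqs hB').1
    rw [e] at e'
    rw [h2] at e'
    linear_combination -e'
  rw [mat_eq hB.1, mat_eq hB'.1, h0, h1, h2, h3, h4, h5]

/-- The two equations of the case LDC. -/
theorem ldc_eqs {R : Type} [CommRing R] {ϖ : R} (h : Len2 R ϖ) {a b c : R}
    {B : Matrix (Fin 3) (Fin 3) R} (hB : B ∈ Fib a b c) (hq : ϖ ∣ B 0 1) :
    dv a b (B 0 2) = -(B 2 2 * B 0 0 + 2 * (B 1 2 * B 0 1)) ∧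
    ev a b c (B 0 2) = B 0 0 * (-(3 * B 0 2 + a) * B 2 2 - (B 1 2) ^ 2) := by
  obtain ⟨h1, h2, h3⟩ := fib_eqs hB
  have hqq : B 0 1 * B 0 1 = 0 := mul_zero_of_dvd h hq hq
  constructor
  · rw [h1, h2, dv]
    ring
  · rw [h1, h2, h3, ev]
    linear_combination (-B 2 2) * hqq

theorem ldc_facts {R : Type} [CommRing R] {ϖ : R} (h : Len2 R ϖ) {a b c : R}
    (hd : disc a b c ≠ 0)
    {B : Matrix (Fin 3) (Fin 3) R} (hB : B ∈ Fib a b c) (hp : ϖ ∣ B 0 0) (hq : ϖ ∣ B 0 1) :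
    ϖ ∣ dv a b (B 0 2) ∧ ϖ ∣ ev a b c (B 0 2) ∧ ev a b c (B 0 2) ≠ 0 ∧
      IsUnit (3 * B 0 2 + a) ∧ B 0 0 ≠ 0 := by
  obtain ⟨h1, h2⟩ := ldc_eqs h hB hq
  have hdv : ϖ ∣ dv a b (B 0 2) := by
    rw [h1]
    exact (dvd_neg).2 (dvd_add (dvd_mul_of_dvd_right hp _)
      (dvd_mul_of_dvd_right (dvd_mul_of_dvd_right hq _) _))
  have hev : ϖ ∣ ev a b c (B 0 2) := by
    rw [h2]
    exact dvd_mul_of_dvd_left hp _
  have h0 : ev a b c (B 0 2) ≠ 0 := fun h0 => hd (ev_eq_of_zero h h0 hdv)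
  refine ⟨hdv, hev, h0, ?_, ?_⟩
  · rcases h.unit (3 * B 0 2 + a) with hu | hu
    · exact hu
    · exfalso
      apply hd
      have e1 := mul_zero_of_dvd h hdv hdv
      have e2 := mul_zero_of_dvd h hdv hev
      have e3 := mul_zero_of_dvd h hev hev
      have e4 := mul_zero_of_dvd h hu hev
      rw [disc_shift a b c (B 0 2)]
      linear_combination ((3 * B 0 2 + a) ^ 2 - 4 * dv a b (B 0 2)) * e1
        - 4 * (3 * B 0 2 + a) ^ 2 * e4 + 18 * (3 * B 0 2 + a) * e2 - 27 * e3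
  · intro hp0
    rw [hp0, zero_mul] at h2
    exact h0 h2

theorem dbl_unique {R : Type} [CommRing R] {ϖ : R} (h : Len2 R ϖ) {a b c r r' : R}
    (h1 : ϖ ∣ ev a b c r) (h2 : ϖ ∣ dv a b r) (h3 : IsUnit (3 * r + a))
    (h1' : ϖ ∣ ev a b c r') (h2' : ϖ ∣ dv a b r') : ϖ ∣ r' - r := by
  rcases h.unit (r' - r) with hu | hu
  · exfalso
    have e0 : r + (r' - r) = r' := by ring
    have e1 := ev_shift a b c r (r' - r)
    have e2 := dv_shift a b r (r' - r)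
    rw [e0] at e1 e2
    have k1 : ϖ ∣ (r' - r) ^ 2 * ((3 * r + a) + (r' - r)) := by
      have : (r' - r) ^ 2 * ((3 * r + a) + (r' - r)) =
          ev a b c r' - ev a b c r - (r' - r) * dv a b r := by
        rw [e1]
        ring
      rw [this]
      exact dvd_sub (dvd_sub h1' h1) (dvd_mul_of_dvd_right h2 _)
    have k2 : ϖ ∣ (r' - r) * (2 * (3 * r + a) + 3 * (r' - r)) := by
      have : (r' - r) * (2 * (3 * r + a) + 3 * (r' - r)) = dv a b r' - dv a b r := by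
        rw [e2]
        ring
      rw [this]
      exact dvd_sub h2' h2
    rw [(hu.pow 2).dvd_mul_left] at k1
    rw [hu.dvd_mul_left] at k2
    apply not_unit_of_dvd h _ h3
    have : 3 * r + a = 3 * ((3 * r + a) + (r' - r)) - (2 * (3 * r + a) + 3 * (r' - r)) := by ring
    rw [this]
    exact dvd_sub (dvd_mul_of_dvd_right k1 _) k2
  · exact hu

/-- Cancellation of a nonzero nonunit. -/
theorem cancel_nonunit {R : Type} [CommRing R] {ϖ : R} (h : Len2 R ϖ) {p x : R}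
    (hp : ϖ ∣ p) (hp0 : p ≠ 0) (hx : p * x = 0) : ϖ ∣ x := by
  obtain ⟨p', rfl⟩ := hp
  have hu : IsUnit p' := by
    rcases h.unit p' with hu | hu
    · exact hu
    · exact absurd (mul_zero_of_dvd h (dvd_refl ϖ) hu) hp0
  apply h.ann
  have e : p' * (ϖ * x) = 0 := by
    rw [← hx]
    ring
  rwa [hu.mul_right_eq_zero] at e

theorem ldc_w {R : Type} [CommRing R] {ϖ : R} (h : Len2 R ϖ) {a b c : R}
    (hd : disc a b c ≠ 0) {B B' : Matrix (Fin 3) (Fin 3) R}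
    (hB : B ∈ Fib a b c) (hp : ϖ ∣ B 0 0) (hq : ϖ ∣ B 0 1)
    (hB' : B' ∈ Fib a b c) (hq' : ϖ ∣ B' 0 1)
    (h0 : B 0 0 = B' 0 0) (h2 : B 0 2 = B' 0 2) (h4 : B 1 2 = B' 1 2) :
    ϖ ∣ B 2 2 - B' 2 2 := by
  obtain ⟨_, _, _, hu, hp0⟩ := ldc_facts h hd hB hp hq
  have e1 := (ldc_eqs h hB hq).2
  have e2 := (ldc_eqs h hB' hq').2
  rw [← h0, ← h2, ← h4] at e2
  have e3 : B 0 0 * ((3 * B 0 2 + a) * (B 2 2 - B' 2 2)) = 0 := by
    linear_combination e1 - e2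
  have e4 := cancel_nonunit h hp hp0 e3
  rwa [hu.dvd_mul_left] at e4

theorem ldc_A {R : Type} [CommRing R] [Finite R] {ϖ : R} (h : Len2 R ϖ) (h2 : IsUnit (2 : R))
    {a b c : R} (hd : disc a b c ≠ 0) :
    {B ∈ Fib a b c | (ϖ ∣ B 0 0 ∧ ϖ ∣ B 0 1) ∧ IsUnit (B 1 2)}.ncard ≤
      ((res ϖ - 1) * (res ϖ * (res ϖ ^ 2 - res ϖ))) * res ϖ := by
  rcases Set.eq_empty_or_nonempty {B ∈ Fib a b c | (ϖ ∣ B 0 0 ∧ ϖ ∣ B 0 1) ∧ IsUnit (B 1 2)}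
    with he | ⟨B0, hB0, ⟨hp0, hq0⟩, hu0⟩
  · rw [he]
    simp
  · obtain ⟨f1, f2, _, f4, _⟩ := ldc_facts h hd hB0 hp0 hq0
    rw [← card_span_ne h, ← card_units h]
    nth_rewrite 1 [← card_coset h (B0 0 2)]
    rw [← card_span h, ← Set.ncard_prod, ← Set.ncard_prod]
    refine ncard_le_fib _ _ _ (fun B => (B 0 0, B 0 2, B 1 2)) (fun B => B 2 2) ?_ ?_ ?_
    · rintro B ⟨hB, ⟨hp, hq⟩, hu⟩
      obtain ⟨g1, g2, _, _, g5⟩ := ldc_facts h hd hB hp hq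
      exact ⟨⟨hp, g5⟩, dbl_unique h f2 f1 f4 g2 g1, hu⟩
    · rintro B ⟨hB, ⟨hp, hq⟩, hu⟩ B' ⟨hB', ⟨hp', hq'⟩, hu'⟩ hf
      simp only [Prod.mk.injEq] at hf
      exact ldc_w h hd hB hp hq hB' hq' hf.1 hf.2.1 hf.2.2
    · rintro B ⟨hB, ⟨hp, hq⟩, hu⟩ B' ⟨hB', ⟨hp', hq'⟩, hu'⟩ hf hg
      simp only [Prod.mk.injEq] at hf
      obtain ⟨k0, k1, k2⟩ := hf
      have e1 := (ldc_eqs h hB hq).1
      have e2 := (ldc_eqs h hB' hq').1
      rw [← k0, ← k1, ← k2, ← hg] at e2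
      have e3 : (2 * B 1 2) * (B 0 1 - B' 0 1) = 0 := by
        linear_combination e1 - e2
      rw [(h2.mul hu).mul_right_eq_zero] at e3
      exact fib_ext hB hB' k0 (sub_eq_zero.1 e3) k1 k2 hg

theorem ldc_B {R : Type} [CommRing R] [Finite R] {ϖ : R} (h : Len2 R ϖ) (h2 : IsUnit (2 : R))
    {a b c : R} (hd : disc a b c ≠ 0) :
    {B ∈ Fib a b c | (ϖ ∣ B 0 0 ∧ ϖ ∣ B 0 1) ∧ ϖ ∣ B 1 2}.ncard ≤
      ((res ϖ - 1) * (res ϖ * res ϖ)) * res ϖ := by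
  have hr : ∀ B ∈ {B ∈ Fib a b c | (ϖ ∣ B 0 0 ∧ ϖ ∣ B 0 1) ∧ ϖ ∣ B 1 2},
      ∀ B' ∈ {B ∈ Fib a b c | (ϖ ∣ B 0 0 ∧ ϖ ∣ B 0 1) ∧ ϖ ∣ B 1 2}, B 0 2 = B' 0 2 := by
    rintro B ⟨hB, ⟨hp, hq⟩, hu⟩ B' ⟨hB', ⟨hp', hq'⟩, hu'⟩
    obtain ⟨f1, f2, _, f4, _⟩ := ldc_facts h hd hB hp hq
    obtain ⟨g1, g2, _, _, _⟩ := ldc_facts h hd hB' hp' hq'
    have ht := dbl_unique h f2 f1 f4 g2 g1
    obtain ⟨e1, e2⟩ := ldc_eqs h hB hq
    obtain ⟨e1', e2'⟩ := ldc_eqs h hB' hq'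
    have k1 : B 1 2 * B 0 1 = 0 := mul_zero_of_dvd h hu hq
    have k2 : B 1 2 * B 1 2 = 0 := mul_zero_of_dvd h hu hu
    have k1' : B' 1 2 * B' 0 1 = 0 := mul_zero_of_dvd h hu' hq'
    have k2' : B' 1 2 * B' 1 2 = 0 := mul_zero_of_dvd h hu' hu'
    -- `ev = a' dv` at both places
    have m1 : ev a b c (B 0 2) = (3 * B 0 2 + a) * dv a b (B 0 2) := by
      linear_combination e2 - (3 * B 0 2 + a) * e1 - B 0 0 * k2 + 2 * (3 * B 0 2 + a) * k1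
    have m2 : ev a b c (B' 0 2) = (3 * B' 0 2 + a) * dv a b (B' 0 2) := by
      linear_combination e2' - (3 * B' 0 2 + a) * e1' - B' 0 0 * k2'
        + 2 * (3 * B' 0 2 + a) * k1'
    have e0 : B 0 2 + (B' 0 2 - B 0 2) = B' 0 2 := by ring
    have s1 := ev_shift a b c (B 0 2) (B' 0 2 - B 0 2)
    have s2 := dv_shift a b (B 0 2) (B' 0 2 - B 0 2)
    rw [e0] at s1 s2
    have tt : (B' 0 2 - B 0 2) * (B' 0 2 - B 0 2) = 0 := mul_zero_of_dvd h ht ht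
    have td : (B' 0 2 - B 0 2) * dv a b (B 0 2) = 0 := mul_zero_of_dvd h ht f1
    have td' : (B' 0 2 - B 0 2) * dv a b (B' 0 2) = 0 := mul_zero_of_dvd h ht g1
    have r1 : ev a b c (B' 0 2) = ev a b c (B 0 2) := by
      linear_combination s1 + td + ((3 * B 0 2 + a) + (B' 0 2 - B 0 2)) * tt
    have r2 : dv a b (B' 0 2) = dv a b (B 0 2) + 2 * (3 * B 0 2 + a) * (B' 0 2 - B 0 2) := by
      linear_combination s2 + 3 * tt
    have r3 : (3 * B 0 2 + a) * (dv a b (B' 0 2) - dv a b (B 0 2)) = 0 := by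
      linear_combination r1 + m1 - m2 - 3 * td'
    rw [f4.mul_right_eq_zero] at r3
    have r4 : (2 * (3 * B 0 2 + a)) * (B' 0 2 - B 0 2) = 0 := by
      linear_combination r3 - r2
    rw [(h2.mul f4).mul_right_eq_zero] at r4
    exact (sub_eq_zero.1 r4).symm
  rw [← card_span_ne h, ← card_span h, ← Set.ncard_prod, ← Set.ncard_prod]
  refine ncard_le_fib _ _ _ (fun B => (B 0 0, B 0 1, B 1 2)) (fun B => B 2 2) ?_ ?_ ?_
  · rintro B ⟨hB, ⟨hp, hq⟩, hu⟩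
    obtain ⟨g1, g2, _, _, g5⟩ := ldc_facts h hd hB hp hq
    exact ⟨⟨hp, g5⟩, hq, hu⟩
  · rintro B hBB B' hBB' hf
    simp only [Prod.mk.injEq] at hf
    have hrr := hr B hBB B' hBB'
    obtain ⟨hB, ⟨hp, hq⟩, hu⟩ := hBB
    obtain ⟨hB', ⟨hp', hq'⟩, hu'⟩ := hBB'
    exact ldc_w h hd hB hp hq hB' hq' hf.1 hrr hf.2.2
  · rintro B hBB B' hBB' hf hg
    simp only [Prod.mk.injEq] at hf
    exact fib_ext hBB.1 hBB'.1 hf.1 hf.2.1 (hr B hBB B' hBB') hf.2.2 hg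

theorem ldc_thm : LDCStmt := by
  intro R _ _ ϖ h h2 a b c hd
  have hset : {B ∈ Fib a b c | ¬ IsUnit (B 0 0) ∧ ¬ IsUnit (B 0 1)} =
      {B ∈ Fib a b c | ϖ ∣ B 0 0 ∧ ϖ ∣ B 0 1} := by
    ext B
    constructor
    · rintro ⟨hB, h0, h1⟩
      exact ⟨hB, dvd_of_not_unit h h0, dvd_of_not_unit h h1⟩
    · rintro ⟨hB, h0, h1⟩
      exact ⟨hB, not_unit_of_dvd h h0, not_unit_of_dvd h h1⟩
  rw [hset]
  constructor
  · intro hdb
    rw [Set.eq_empty_iff_forall_notMem]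
    rintro B ⟨hB, hp, hq⟩
    obtain ⟨f1, f2, _, _, _⟩ := ldc_facts h hd hB hp hq
    exact hdb ⟨_, f2, f1⟩
  · have hun : {B ∈ Fib a b c | ϖ ∣ B 0 0 ∧ ϖ ∣ B 0 1} =
        {B ∈ Fib a b c | (ϖ ∣ B 0 0 ∧ ϖ ∣ B 0 1) ∧ IsUnit (B 1 2)} ∪
        {B ∈ Fib a b c | (ϖ ∣ B 0 0 ∧ ϖ ∣ B 0 1) ∧ ϖ ∣ B 1 2} := by
      ext B
      constructor
      · rintro ⟨hB, hpq⟩
        rcases h.unit (B 1 2) with hu | hu
        · exact Or.inl ⟨hB, hpq, hu⟩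
        · exact Or.inr ⟨hB, hpq, hu⟩
      · rintro (⟨hB, hpq, _⟩ | ⟨hB, hpq, _⟩)
        · exact ⟨hB, hpq⟩
        · exact ⟨hB, hpq⟩
    rw [hun]
    refine (Set.ncard_union_le _ _).trans ?_
    refine (Nat.add_le_add (ldc_A h h2 hd) (ldc_B h h2 hd)).trans ?_
    have hk := res_pos h
    obtain ⟨m, hm⟩ : ∃ m, res ϖ = m + 1 := ⟨res ϖ - 1, by omega⟩
    rw [hm]
    have e1 : (m + 1) ^ 2 - (m + 1) = (m + 1) * m := by
      have : (m + 1) ^ 2 = (m + 1) * m + (m + 1) := by ring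
      omega
    rw [e1, Nat.add_sub_cancel]
    apply le_of_eq
    ring

end Pool.AVR.H29
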