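import Pool.Agent.H29.AVR.Common

/-!
# AVR, module LDN
-/

set_option autoImplicit false

namespace Pool.AVR.H29

open Polynomial Matrix Pool.AVR

theorem ldn_unique {R : Type} [CommRing R] {ϖ : R} (h : Len2 R ϖ) {a b c s t : R}
    (hd : disc a b c ≠ 0) (hs : ev a b c s = 0) (ht : ev a b c t = 0) (hst : ϖ ∣ t - s) :
    t = s := by
  obtain ⟨z, hz⟩ := hst
  have e1 := ev_shift a b c s (ϖ * z)
  have h2 : (ϖ * z) ^ 2 = 0 := by
    rw [pow_two]
    exact mul_zero_of_dvd h (dvd_mul_right _ _) (dvd_mul_right _ _)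
  have h3 : (ϖ * z) ^ 3 = 0 := by
    rw [pow_succ, h2, zero_mul]
  have e2 : s + ϖ * z = t := by
    rw [← hz]
    ring
  rw [e2, ht, hs, h2, h3] at e1
  have hu : IsUnit (dv a b s) := by
    rcases h.unit (dv a b s) with hu | hu
    · exact hu
    · exact absurd (ev_eq_of_zero h hs hu) hd
  have e3 : ϖ * z * dv a b s = 0 := by
    linear_combination -e1
  have e4 : ϖ * z = 0 := by
    rwa [hu.mul_left_eq_zero] at e3
  rw [← e2, e4, add_zero]

theorem ldn_thm : LDNStmt := by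
  intro R _ _ ϖ h _ a b c hd
  classical
  set U := {s : R | IsUnit (ev a b c s)} with hU
  set Z := {s : R | ev a b c s = 0} with hZ
  set N := {s : R | ϖ ∣ ev a b c s} with hN
  have hUN : U = Nᶜ := by
    ext x
    rw [hU, hN, Set.mem_compl_iff]
    change IsUnit (ev a b c x) ↔ ¬ (ϖ ∣ ev a b c x)
    constructor
    · intro hx hdx
      exact not_unit_of_dvd h hdx hx
    · intro hx
      exact (h.unit _).resolve_right hx
  have hcU : U.ncard + N.ncard = res ϖ ^ 2 := by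
    rw [hUN, ← card_ring h, add_comm]
    exact Set.ncard_add_ncard_compl N
  have hinj : Set.InjOn (fun p : R × R => p.1 + p.2) (Z ×ˢ {x : R | ϖ ∣ x}) := by
    rintro ⟨s, x⟩ hs ⟨t, y⟩ ht hst
    rw [Set.mem_prod] at hs ht
    have hs1 : ev a b c s = 0 := hs.1
    have ht1 : ev a b c t = 0 := ht.1
    have hx : ϖ ∣ x := hs.2
    have hy : ϖ ∣ y := ht.2
    simp only at hst
    have e1 : t - s = x - y := by
      linear_combination -hst
    have e2 : t = s := ldn_unique h hd hs1 ht1 (by rw [e1]; exact dvd_sub hx hy)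
    subst e2
    simp only [add_right_inj] at hst
    rw [hst]
  have hmem : ∀ p ∈ Z ×ˢ {x : R | ϖ ∣ x}, p.1 + p.2 ∈ N := by
    rintro ⟨s, x⟩ hs
    rw [Set.mem_prod] at hs
    have hs1 : ev a b c s = 0 := hs.1
    have hx : ϖ ∣ x := hs.2
    change ϖ ∣ ev a b c (s + x)
    rw [ev_shift, hs1]
    obtain ⟨z, rfl⟩ := hx
    exact ⟨z * dv a b s + (3 * s + a) * (ϖ * z ^ 2) + ϖ ^ 2 * z ^ 3, by ring⟩
  constructor
  · intro _
    have h1 : (Z ×ˢ {x : R | ϖ ∣ x}).ncard ≤ N.ncard :=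
      Set.ncard_le_ncard_of_injOn _ hmem hinj
    rw [Set.ncard_prod, card_span h] at h1
    rw [← hcU, mul_comm (res ϖ)]
    exact Nat.add_le_add_left h1 _
  · rintro ⟨r, hr1, hr2⟩
    have hsub : ∀ p ∈ Z ×ˢ {x : R | ϖ ∣ x}, p.1 + p.2 ∈ N \ {x : R | ϖ ∣ x - r} := by
      intro p hp
      refine ⟨hmem p hp, ?_⟩
      obtain ⟨s, x⟩ := p
      rw [Set.mem_prod] at hp
      have hs1 : ev a b c s = 0 := hp.1
      have hx : ϖ ∣ x := hp.2
      intro hcon
      have hcon' : ϖ ∣ s + x - r := hcon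
      have hsr : ϖ ∣ s - r := by
        have := dvd_sub hcon' hx
        have e : s + x - r - x = s - r := by ring
        rwa [e] at this
      apply hd
      apply ev_eq_of_zero h hs1
      obtain ⟨z, hz⟩ := hsr
      have e1 : s = r + ϖ * z := by rw [← hz]; ring
      rw [e1, dv_shift]
      obtain ⟨w, hw⟩ := hr2
      rw [hw]
      exact ⟨w + 2 * (3 * r + a) * z + 3 * ϖ * z ^ 2, by ring⟩
    have h1 : (Z ×ˢ {x : R | ϖ ∣ x}).ncard ≤ (N \ {x : R | ϖ ∣ x - r}).ncard :=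
      Set.ncard_le_ncard_of_injOn _ hsub hinj
    have hrN : {x : R | ϖ ∣ x - r} ⊆ N := by
      intro x hx
      have hx' : ϖ ∣ x - r := hx
      obtain ⟨z, hz⟩ := hx'
      have e1 : x = r + ϖ * z := by rw [← hz]; ring
      change ϖ ∣ ev a b c x
      rw [e1, ev_shift]
      obtain ⟨w, hw⟩ := hr1
      rw [hw]
      exact ⟨w + z * dv a b r + (3 * r + a) * (ϖ * z ^ 2) + ϖ ^ 2 * z ^ 3, by ring⟩
    have h2 : (N \ {x : R | ϖ ∣ x - r}).ncard + res ϖ = N.ncard := by
      rw [← card_coset h r]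
      exact Set.ncard_diff_add_ncard_of_subset hrN
    rw [Set.ncard_prod, card_span h] at h1
    rw [mul_comm (res ϖ)]
    omega

end Pool.AVR.H29
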